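import Pool.Agent.Y5.D.Stm

/-! Estimates for abstract quadratic systems with unbounded damping. -/

open Set Filter Topology MeasureTheory

set_option autoImplicit false

namespace Pool.Agent.Y751.ND

open Pool.Agent.Y5.D

/-- the scalar function `exp (-(d t)) ∫₀ᵗ exp (d r) dr` -/
noncomputable def ex (d t : ℝ) : ℝ := if d = 0 then t else (Real.exp (d * t) - 1) / d

theorem ex_deriv (d t : ℝ) : HasDerivAt (ex d) (Real.exp (d * t)) t := by
  by_cases h : d = 0
  · subst h
    have h1 : ex 0 = fun t => t := by ext t; simp [ex]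
    rw [h1]
    simpa using hasDerivAt_id' t
  · have h1 : ex d = fun t => (Real.exp (d * t) - 1) / d := by ext t; simp [ex, h]
    rw [h1]
    have h2 : HasDerivAt (fun r : ℝ => Real.exp (d * r)) (Real.exp (d * t) * d) t := by
      have := ((hasDerivAt_id t).const_mul d).exp
      simpa using this
    have h3 := (h2.sub_const 1).div_const d
    refine h3.congr_deriv ?_
    field_simp

theorem ex_zero (d : ℝ) : ex d 0 = 0 := by simp [ex]

theorem ex_bound {d t : ℝ} (hd : 0 ≤ d) (ht : 0 ≤ t) :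
    Real.exp (-(d * t)) * ((1 + √d) * ex d t) ≤ t + √t := by
  rcases eq_or_lt_of_le hd with h | h
  · subst h
    simp only [ex, if_true, zero_mul, neg_zero, Real.exp_zero, Real.sqrt_zero, add_zero, one_mul]
    have := Real.sqrt_nonneg t
    linarith
  · set m := Real.exp (-(d * t)) * ex d t with hm
    have hm1 : m = (1 - Real.exp (-(d * t))) / d := by
      rw [hm, ex, if_neg h.ne', mul_div_assoc', mul_sub, ← Real.exp_add]
      simp
    have hm0 : 0 ≤ m := by
      rw [hm1]
      apply div_nonneg _ h.le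
      have : Real.exp (-(d * t)) ≤ 1 := by
        rw [Real.exp_le_one_iff]
        have := mul_nonneg h.le ht
        linarith
      linarith
    have hmt : m ≤ t := by
      rw [hm1, div_le_iff₀ h]
      have := Real.add_one_le_exp (-(d * t))
      nlinarith
    have hmd : m * d ≤ 1 := by
      rw [hm1, div_mul_cancel₀ _ h.ne']
      have := Real.exp_pos (-(d * t))
      linarith
    have h1 : √d * m ≤ √t := by
      apply Real.le_sqrt_of_sq_le
      rw [mul_pow, Real.sq_sqrt h.le]
      nlinarith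
    calc Real.exp (-(d * t)) * ((1 + √d) * ex d t) = m + √d * m := by rw [hm]; ring
      _ ≤ t + √t := by linarith

/-- one mode, Duhamel -/
theorem int_bound {d t Q : ℝ} (hd : 0 ≤ d) (ht : 0 ≤ t) (hQ : 0 ≤ Q) {f : ℝ → ℝ}
    (hc : Continuous f) (hf : ∀ r, |f r| ≤ Q * (1 + √d)) :
    |Real.exp (-(d * t)) * ∫ r in (0 : ℝ)..t, Real.exp (d * r) * f r| ≤ Q * (t + √t) := by
  have hi : Continuous fun r => Real.exp (d * r) * f r := by fun_prop
  have key := image_norm_le_of_norm_deriv_right_le_deriv_boundary (a := 0) (b := t)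
    (f := fun s => ∫ r in (0 : ℝ)..s, Real.exp (d * r) * f r)
    (f' := fun r => Real.exp (d * r) * f r) (B := fun s => Q * ((1 + √d) * ex d s))
    (B' := fun s => Q * ((1 + √d) * Real.exp (d * s)))
    (by
      apply Continuous.continuousOn
      exact intervalIntegral.continuous_primitive (fun a b => hi.intervalIntegrable a b) 0)
    (fun r _ => (hi.integral_hasStrictDerivAt 0 r).hasDerivAt.hasDerivWithinAt)
    (by simp [ex_zero])
    (fun s => ((ex_deriv d s).const_mul (1 + √d)).const_mul Q)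
    (by
      intro r _
      rw [Real.norm_eq_abs, abs_mul, abs_of_pos (Real.exp_pos _)]
      have := hf r
      calc Real.exp (d * r) * |f r| ≤ Real.exp (d * r) * (Q * (1 + √d)) := by gcongr
        _ = _ := by ring) (right_mem_Icc.2 ht)
  rw [abs_mul, abs_of_pos (Real.exp_pos _)]
  rw [Real.norm_eq_abs] at key
  calc _ ≤ Real.exp (-(d * t)) * (Q * ((1 + √d) * ex d t)) := by gcongr
    _ = Q * (Real.exp (-(d * t)) * ((1 + √d) * ex d t)) := by ring
    _ ≤ Q * (t + √t) := by
        have := ex_bound hd ht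
        gcongr

theorem frac_bound {d lam : ℝ} (hd : 0 ≤ d) (hlam : 1 ≤ lam) :
    (1 + √d) / (d + lam) ≤ 2 / √lam := by
  have h0 : 0 < lam := by linarith
  have h1 : 1 ≤ √lam := Real.one_le_sqrt.2 hlam
  have h2 : √lam * √lam = lam := Real.mul_self_sqrt h0.le
  have h3 : √d * √d = d := Real.mul_self_sqrt hd
  rw [div_le_div_iff₀ (by linarith) (by linarith)]
  nlinarith [sq_nonneg (√d - √lam), Real.sqrt_nonneg d]

/-- one mode -/
theorem mode {T d lam D c : ℝ} (hd : 0 ≤ d) (hlam : 1 ≤ lam) (hc : 0 ≤ c) (hD : 0 ≤ D)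
    {w f : ℝ → ℝ} (hw : ∀ t ∈ Icc 0 T, HasDerivWithinAt w (-(d * w t) + f t) (Icc 0 T) t)
    (h0 : |w 0| ≤ D) (hf : ∀ t ∈ Icc 0 T, |f t| ≤ c * (1 + √d) * Real.exp (lam * t)) :
    ∀ t ∈ Icc 0 T, |w t| ≤ (D + c * (2 / √lam)) * Real.exp (lam * t) := by
  intro t ht
  have hlam0 : 0 < lam := by linarith
  have hv : ∀ r ∈ Icc 0 T, HasDerivWithinAt (fun r => Real.exp (d * r) * w r)
      (Real.exp (d * r) * f r) (Icc 0 T) r := by
    intro r hr
    have h1 : HasDerivAt (fun r : ℝ => Real.exp (d * r)) (Real.exp (d * r) * d) r := by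
      have := ((hasDerivAt_id r).const_mul d).exp
      simpa using this
    have h2 := h1.hasDerivWithinAt (s := Icc 0 T) |>.mul (hw r hr)
    exact h2.congr_deriv (by ring)
  have hcont : ContinuousOn (fun r => Real.exp (d * r) * w r) (Icc 0 T) :=
    fun r hr => (hv r hr).continuousWithinAt
  set q := c * ((1 + √d) / (d + lam)) with hq
  have hq0 : 0 ≤ q := by have := Real.sqrt_nonneg d; positivity
  have hqd : q * (d + lam) = c * (1 + √d) := by
    rw [hq]; field_simp
  have hB : ∀ r : ℝ, HasDerivAt (fun r => Real.exp (d * r) * D +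
      q * Real.exp ((d + lam) * r))
      (d * Real.exp (d * r) * D + q * ((d + lam) * Real.exp ((d + lam) * r))) r := by
    intro r
    have h1 : HasDerivAt (fun r : ℝ => Real.exp (d * r)) (Real.exp (d * r) * d) r := by
      have := ((hasDerivAt_id r).const_mul d).exp
      simpa using this
    have h2 : HasDerivAt (fun r : ℝ => Real.exp ((d + lam) * r))
        (Real.exp ((d + lam) * r) * (d + lam)) r := by
      have := ((hasDerivAt_id r).const_mul (d + lam)).exp
      simpa using this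
    exact ((h1.mul_const D).add (h2.const_mul q)).congr_deriv (by ring)
  have key := image_norm_le_of_norm_deriv_right_le_deriv_boundary (a := 0) (b := T)
    (f' := fun r => Real.exp (d * r) * f r) hcont
    (fun r hr => ((hv r ⟨hr.1, hr.2.le⟩).mono_of_mem_nhdsWithin (by
      have : Icc r T ∈ 𝓝[Ici r] r := Icc_mem_nhdsGE hr.2
      exact mem_of_superset this (Icc_subset_Icc_left hr.1)))) (by
      simp only [mul_zero, Real.exp_zero, one_mul, mul_one, Real.norm_eq_abs]
      linarith) hB (by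
      intro r hr
      have h1 := hf r ⟨hr.1, hr.2.le⟩
      rw [Real.norm_eq_abs, abs_mul, abs_of_pos (Real.exp_pos _)]
      have h2 : 0 ≤ d * Real.exp (d * r) * D := by positivity
      have h3 : Real.exp ((d + lam) * r) = Real.exp (d * r) * Real.exp (lam * r) := by
        rw [← Real.exp_add]; congr 1; ring
      calc Real.exp (d * r) * |f r| ≤ Real.exp (d * r) * (c * (1 + √d) * Real.exp (lam * r)) := by
            gcongr
        _ = q * (d + lam) * (Real.exp (d * r) * Real.exp (lam * r)) := by rw [hqd]; ring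
        _ ≤ _ := by rw [h3]; linarith) ht
  simp only [Real.norm_eq_abs, abs_mul, abs_of_pos (Real.exp_pos _)] at key
  have h3 : Real.exp ((d + lam) * t) = Real.exp (d * t) * Real.exp (lam * t) := by
    rw [← Real.exp_add]; congr 1; ring
  rw [h3] at key
  have hqq : q ≤ c * (2 / √lam) := by
    have := frac_bound hd hlam
    rw [hq]
    gcongr
  have h4 : Real.exp (d * t) * |w t| ≤
      Real.exp (d * t) * ((D + c * (2 / √lam)) * Real.exp (lam * t)) := by
    have h5 : 1 ≤ Real.exp (lam * t) := Real.one_le_exp (mul_nonneg hlam0.le ht.1)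
    have h6 : Real.exp (d * t) * D ≤ Real.exp (d * t) * (D * Real.exp (lam * t)) := by
      gcongr
      exact le_mul_of_one_le_right hD h5
    calc Real.exp (d * t) * |w t| ≤ _ := key
      _ ≤ Real.exp (d * t) * (D * Real.exp (lam * t))
          + c * (2 / √lam) * (Real.exp (d * t) * Real.exp (lam * t)) := by
          gcongr
      _ = _ := by ring
  exact le_of_mul_le_mul_left h4 (Real.exp_pos _)

/-- growth of a system with diagonal damping -/
theorem grow {I : Type} {T A₀ D κ : ℝ} (hκ : 0 ≤ κ) (hD : 0 ≤ D) {d : I → ℝ} (hd : ∀ n, 0 ≤ d n)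
    {w f : I → ℝ → ℝ}
    (hw : ∀ n, ∀ t ∈ Icc 0 T, HasDerivWithinAt (w n) (-(d n * w n t) + f n t) (Icc 0 T) t)
    (h0 : ∀ n, |w n 0| ≤ D) (hA : ∀ t ∈ Icc 0 T, ∀ n, |w n t| ≤ A₀)
    (hf : ∀ t ∈ Icc 0 T, ∀ A, 0 ≤ A → (∀ n, |w n t| ≤ A) → ∀ n, |f n t| ≤ κ * A * (1 + √(d n))) :
    ∀ n, ∀ t ∈ Icc 0 T, |w n t| ≤ 2 * D * Real.exp (((4 * κ) ^ 2 + 1) * t) := by
  set lam := (4 * κ) ^ 2 + 1 with hlam
  have hlam1 : 1 ≤ lam := by rw [hlam]; nlinarith [sq_nonneg (4 * κ)]
  have hlam0 : 0 < lam := by linarith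
  have hsq : 4 * κ ≤ √lam := by
    apply Real.le_sqrt_of_sq_le
    rw [hlam]; linarith
  set S := {A : ℝ | 0 ≤ A ∧ ∀ n, ∀ t ∈ Icc 0 T, |w n t| ≤ A * Real.exp (lam * t)} with hS
  have hne : max A₀ 0 ∈ S := by
    refine ⟨le_max_right _ _, fun n t ht => ?_⟩
    have h5 : 1 ≤ Real.exp (lam * t) := Real.one_le_exp (mul_nonneg hlam0.le ht.1)
    calc |w n t| ≤ max A₀ 0 := le_trans (hA t ht n) (le_max_left _ _)
      _ ≤ _ := le_mul_of_one_le_right (le_max_right _ _) h5
  have hbdd : BddBelow S := ⟨0, fun A hA => hA.1⟩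
  have hmem : sInf S ∈ S := by
    refine ⟨le_csInf ⟨_, hne⟩ fun A hA => hA.1, fun n t ht => ?_⟩
    rw [← div_le_iff₀ (Real.exp_pos _)]
    refine le_csInf ⟨_, hne⟩ fun A hA => ?_
    rw [div_le_iff₀ (Real.exp_pos _)]
    exact hA.2 n t ht
  have hstep : D + κ * sInf S * (2 / √lam) ∈ S := by
    refine ⟨by have := hmem.1; positivity, fun n t ht => ?_⟩
    exact mode (hd n) hlam1 (mul_nonneg hκ hmem.1) hD (hw n) (h0 n)
      (fun r hr => by
        have := hf r hr (sInf S * Real.exp (lam * r)) (mul_nonneg hmem.1 (Real.exp_pos _).le)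
          (fun n => hmem.2 n r hr) n
        linarith) t ht
  have h1 : sInf S ≤ D + κ * sInf S * (2 / √lam) := csInf_le hbdd hstep
  have h2 : κ * sInf S * (2 / √lam) ≤ sInf S / 2 := by
    rw [mul_div_assoc', div_le_div_iff₀ (by linarith [Real.one_le_sqrt.2 hlam1]) (by norm_num)]
    have := hmem.1
    nlinarith
  have h3 : sInf S ≤ 2 * D := by linarith
  intro n t ht
  exact le_trans (hmem.2 n t ht) (by gcongr)

/-- estimate of the bilinear sum -/
theorem qbound {P : Type} {W Q : ℝ} (hW : 0 < W) {c m u : P → ℝ} (hm : ∀ p, 0 < m p)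
    (hs : Summable fun p => |c p| * W / m p) (hu : ∀ p, m p * |u p| ≤ Q) :
    Summable (fun p => c p * u p) ∧ W * |∑' p, c p * u p| ≤ Q * ∑' p, |c p| * W / m p := by
  have h1 : ∀ p, |c p * u p| ≤ Q / W * (|c p| * W / m p) := by
    intro p
    have h2 := hu p
    have h3 := hm p
    rw [abs_mul]
    have h4 : |u p| ≤ Q / m p := by rw [le_div_iff₀ h3]; linarith
    calc |c p| * |u p| ≤ |c p| * (Q / m p) := by gcongr
      _ = Q / W * (|c p| * W / m p) := by field_simp
  have h2 : Summable (fun p => c p * u p) :=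
    Summable.of_norm_bounded (hs.mul_left (Q / W)) (fun p => by rw [Real.norm_eq_abs]; exact h1 p)
  refine ⟨h2, ?_⟩
  have h3 : |∑' p, c p * u p| ≤ ∑' p, Q / W * (|c p| * W / m p) :=
    tsum_of_norm_bounded (hs.mul_left (Q / W)).hasSum
      (fun p => by rw [Real.norm_eq_abs]; exact h1 p)
  rw [tsum_mul_left] at h3
  calc W * |∑' p, c p * u p| ≤ W * (Q / W * ∑' p, |c p| * W / m p) := by gcongr
    _ = _ := by field_simp

end Pool.Agent.Y751.ND
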