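import Pool.Agent.Y751.ND.Uniq

/-! Local existence for abstract quadratic systems with damping, by contraction. -/

open Set Filter Topology MeasureTheory
open scoped BoundedContinuousFunction NNReal

set_option autoImplicit false

namespace Pool.Agent.Y751.ND

open Pool.Agent.Y5.D

variable {I : Type} {d κ : I → ℝ} {c : I → I → I → ℝ}

/-- coordinates -/
noncomputable def X (κ : I → ℝ) (z : I × ℝ → ℝ) (t : ℝ) (n : I) : ℝ := (κ n)⁻¹ * z (n, t)

/-- the nonlinearity along a path -/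
noncomputable def F (κ : I → ℝ) (c : I → I → I → ℝ) (z : I × ℝ → ℝ) (n : I) (t : ℝ) : ℝ :=
  κ n * qd c (X κ z t) n

/-- Duhamel -/
noncomputable def U (d κ : I → ℝ) (c : I → I → I → ℝ) (a : I → ℝ) (z : I × ℝ → ℝ) (n : I)
    (t : ℝ) : ℝ :=
  Real.exp (-(d n * t)) * (a n + ∫ r in (0 : ℝ)..t, Real.exp (d n * r) * F κ c z n r)

/-- clamp -/
noncomputable def cl (τ t : ℝ) : ℝ := max 0 (min τ t)

theorem cl_cont (τ : ℝ) : Continuous (cl τ) := by unfold cl; fun_prop

theorem cl_mem {τ : ℝ} (hτ : 0 ≤ τ) (t : ℝ) : cl τ t ∈ Icc 0 τ :=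
  ⟨le_max_left _ _, max_le hτ (min_le_left _ _)⟩

theorem cl_eq {τ t : ℝ} (ht : t ∈ Icc 0 τ) : cl τ t = t := by
  unfold cl; rw [min_eq_right ht.2, max_eq_right ht.1]

theorem X_bound (hκ : ∀ i, 1 ≤ κ i) {z : I × ℝ → ℝ} {R : ℝ} (hz : ∀ p, |z p| ≤ R) (t : ℝ) (n : I) :
    κ n * |X κ z t n| ≤ R := by
  have := lt_of_lt_of_le one_pos (hκ n)
  unfold X
  rw [abs_mul, abs_inv, abs_of_pos this, ← mul_assoc, mul_inv_cancel₀ this.ne', one_mul]
  exact hz _

theorem F_bound (hκ : ∀ i, 1 ≤ κ i) {C : ℝ} (h : Sm d κ (fun _ => 1) c C)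
    {z : I × ℝ → ℝ} {R : ℝ} (hz : ∀ p, |z p| ≤ R) (n : I) (t : ℝ) :
    |F κ c z n t| ≤ 2 * R * R * C * (1 + √(d n)) := by
  have hR : 0 ≤ R := le_trans (abs_nonneg _) (hz (n, t))
  unfold F
  rw [abs_mul, abs_of_pos (lt_of_lt_of_le one_pos (hκ n)), qd_eq]
  have h2 := (qd_bound (θ := fun _ => 1) (Q := 2 * R * R) hκ (fun _ => le_rfl) h
    (by positivity) (u := fun p => X κ z t p.1 * X κ z t p.2)
    (fun p => by
      have h3 := prod_bound hκ (X_bound hκ hz t) (X_bound hκ hz t) p.1 p.2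
      linarith) n).2
  rw [one_mul] at h2
  refine h2.trans (le_of_eq (by ring))

theorem F_sub (hκ : ∀ i, 1 ≤ κ i) {C : ℝ} (h : Sm d κ (fun _ => 1) c C)
    {z z' : I × ℝ → ℝ} {R δ : ℝ} (hz : ∀ p, |z p| ≤ R) (hz' : ∀ p, |z' p| ≤ R)
    (hd : ∀ p, |z p - z' p| ≤ δ) (n : I) (t : ℝ) :
    |F κ c z n t - F κ c z' n t| ≤ 4 * R * δ * C * (1 + √(d n)) := by
  unfold F
  rw [← mul_sub, abs_mul, abs_of_pos (lt_of_lt_of_le one_pos (hκ n))]
  have h1 := qd_sub (M := R) (M' := R) (A := δ) hκ h (X_bound hκ hz t) (X_bound hκ hz' t)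
    (fun i => by
      have h1 : X κ z t i - X κ z' t i = X κ (fun p => z p - z' p) t i := by unfold X; ring
      rw [h1]
      exact X_bound hκ hd t i) n
  refine h1.trans (le_of_eq (by ring))

theorem F_cont [TopologicalSpace I] (hκ : ∀ i, 1 ≤ κ i) {C : ℝ}
    (h : Sm d κ (fun _ => 1) c C)
    {z : I × ℝ → ℝ} (hc : Continuous z) {R : ℝ} (hz : ∀ p, |z p| ≤ R) (n : I) :
    Continuous (F κ c z n) := by
  have hX : ∀ m, Continuous fun t => X κ z t m := by
    intro m
    unfold X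
    exact continuous_const.mul (hc.comp (by fun_prop))
  have h1 : F κ c z n = fun t => κ n * ∑' p : I × I, c n p.1 p.2 * (X κ z t p.1 * X κ z t p.2) := by
    ext t; unfold F; rw [qd_eq]
  rw [h1]
  refine continuous_const.mul ?_
  have hR : 0 ≤ R := le_trans (abs_nonneg _) (hz (n, 0))
  have hκn := lt_of_lt_of_le one_pos (hκ n)
  refine continuous_tsum (u := fun p : I × I => 2 * R * R / κ n *
    (|c n p.1 p.2| * (1 * κ n) / (κ p.1 * κ p.2 * (1 + 1))))
    (fun p => ?_) ((h n).1.mul_left _) (fun p t => ?_)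
  · have := hX p.1
    have := hX p.2
    fun_prop
  · have h3 := prod_bound hκ (X_bound hκ hz t) (X_bound hκ hz t) p.1 p.2
    have h4 := lt_of_lt_of_le one_pos (hκ p.1)
    have h5 := lt_of_lt_of_le one_pos (hκ p.2)
    rw [Real.norm_eq_abs, abs_mul]
    have h6 : |X κ z t p.1 * X κ z t p.2| ≤ R * R / (κ p.1 * κ p.2) := by
      rw [le_div_iff₀ (by positivity)]; linarith
    calc |c n p.1 p.2| * |X κ z t p.1 * X κ z t p.2|
        ≤ |c n p.1 p.2| * (R * R / (κ p.1 * κ p.2)) := by gcongr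
      _ = _ := by field_simp; ring

theorem U_deriv [TopologicalSpace I] (hκ : ∀ i, 1 ≤ κ i) {C : ℝ}
    (h : Sm d κ (fun _ => 1) c C)
    {z : I × ℝ → ℝ} (hc : Continuous z) {R : ℝ} (hz : ∀ p, |z p| ≤ R) (a : I → ℝ) (n : I) (t : ℝ) :
    HasDerivAt (U d κ c a z n) (-(d n * U d κ c a z n t) + F κ c z n t) t := by
  have hF := F_cont hκ h hc hz n
  have hi : Continuous fun r => Real.exp (d n * r) * F κ c z n r := by fun_prop
  have h1 := (hi.integral_hasStrictDerivAt 0 t).hasDerivAt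
  have h2 : HasDerivAt (fun r : ℝ => Real.exp (-(d n * r))) (Real.exp (-(d n * t)) * (-(d n))) t := by
    have := ((hasDerivAt_id t).const_mul (d n)).neg.exp
    simpa using this
  have h3 := h2.mul (h1.const_add (a n))
  refine h3.congr_deriv ?_
  unfold U
  have h4 : Real.exp (-(d n * t)) * Real.exp (d n * t) = 1 := by
    rw [← Real.exp_add]; simp
  calc _ = -(d n * (Real.exp (-(d n * t)) * (a n + ∫ r in (0 : ℝ)..t,
        Real.exp (d n * r) * F κ c z n r))) +
        (Real.exp (-(d n * t)) * Real.exp (d n * t)) * F κ c z n t := by ring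
    _ = _ := by rw [h4, one_mul]

/-- Local existence with a time depending only on the norm. -/
theorem local_ex (hd : ∀ i, 0 ≤ d i) (hκ : ∀ i, 1 ≤ κ i) {C : ℝ} (h : Sm d κ (fun _ => 1) c C)
    (M : ℝ) : ∃ τ, 0 < τ ∧ ∀ x₀ : I → ℝ, (∀ n, κ n * |x₀ n| ≤ M) →
      ∃ x, (∀ n, x n 0 = x₀ n) ∧ CSol d κ c τ x := by
  have h' : Sm d κ (fun _ => 1) c |C| := h.mono (le_abs_self C)
  set K := |C| with hK
  have hK0 : 0 ≤ K := abs_nonneg _
  set R := |M| + 1 with hR
  have hR1 : 1 ≤ R := by rw [hR]; have := abs_nonneg M; linarith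
  have hR0 : 0 < R := by linarith
  set σ := 1 / (16 * (K + 1) * R ^ 2) with hσ
  have hden : 0 < 16 * (K + 1) * R ^ 2 := by positivity
  have hσ0 : 0 < σ := by positivity
  have hσ1 : σ ≤ 1 := by
    rw [hσ, div_le_one hden]
    have : 1 ≤ (K + 1) * R ^ 2 := by
      have : 1 ≤ R ^ 2 := one_le_pow₀ hR1
      nlinarith
    nlinarith
  set τ := σ ^ 2 with hτ
  have hτ0 : 0 < τ := by positivity
  have hsum : ∀ t ∈ Icc 0 τ, t + √t ≤ 2 * σ := by
    intro t ht
    have h1 : √t ≤ σ := by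
      rw [show σ = √τ by rw [hτ, Real.sqrt_sq hσ0.le]]
      exact Real.sqrt_le_sqrt ht.2
    have h2 : t ≤ σ := ht.2.trans (by rw [hτ]; nlinarith)
    linarith
  have hτ1 : 2 * R * R * K * (2 * σ) ≤ 1 := by
    rw [hσ, mul_one_div, mul_div_assoc', div_le_one hden]
    nlinarith [mul_nonneg hK0 (sq_nonneg R), sq_nonneg R]
  have hτ2 : 4 * R * K * (2 * σ) ≤ 1 / 2 := by
    rw [hσ, mul_one_div, mul_div_assoc', div_le_div_iff₀ hden (by norm_num)]
    nlinarith [mul_nonneg hK0 hR0.le, mul_nonneg (mul_nonneg hK0 hR0.le) (sub_nonneg.2 hR1),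
      sq_nonneg R]
  refine ⟨τ, hτ0, fun x₀ hx₀ => ?_⟩
  rcases isEmpty_or_nonempty I with hI | ⟨⟨i₀⟩⟩
  · exact ⟨fun i => isEmptyElim i, fun i => isEmptyElim i, fun i => isEmptyElim i, 0,
      fun _ _ i => isEmptyElim i⟩
  have hκ0 : ∀ i, 0 < κ i := fun i => lt_of_lt_of_le one_pos (hκ i)
  have hM0 : 0 ≤ M := le_trans (by have := hκ0 i₀; positivity) (hx₀ i₀)
  have hMR : M ≤ R - 1 := by rw [hR, abs_of_nonneg hM0]; linarith
  set a : I → ℝ := fun n => κ n * x₀ n with ha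
  have ha0 : ∀ n, |a n| ≤ M := fun n => by
    rw [ha]; simp only; rw [abs_mul, abs_of_pos (hκ0 n)]; exact hx₀ n
  letI : TopologicalSpace I := ⊥
  haveI : DiscreteTopology I := ⟨rfl⟩
  -- the map
  have hU_cont : ∀ z : (I × ℝ) →ᵇ ℝ, Continuous fun p : I × ℝ => U d κ c a z p.1 (cl τ p.2) := by
    intro z
    have hz : ∀ p, |z p| ≤ ‖z‖ := fun p => z.norm_coe_le_norm p
    have h1 : ∀ n, Continuous fun t => U d κ c a z n (cl τ t) := fun n =>
      (continuous_iff_continuousAt.2 fun t =>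
        (U_deriv hκ h' z.continuous hz a n t).continuousAt).comp (cl_cont τ)
    exact continuous_prod_of_discrete_left.2 h1
  have hU_bd : ∀ (z : I × ℝ → ℝ) (R' : ℝ), Continuous z → (∀ p, |z p| ≤ R') → ∀ n, ∀ t ∈ Icc 0 τ,
      |U d κ c a z n t| ≤ M + 2 * R' * R' * K * (2 * σ) := by
    intro z R' hzc hz n t ht
    have hR' : 0 ≤ R' := le_trans (abs_nonneg _) (hz (i₀, 0))
    have h1 := int_bound (hd n) ht.1 (Q := 2 * R' * R' * K) (by positivity)
      (F_cont hκ h' hzc hz n) (fun r => F_bound hκ h' hz n r)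
    unfold U
    rw [mul_add]
    have h2 : |Real.exp (-(d n * t)) * a n| ≤ M := by
      rw [abs_mul, abs_of_pos (Real.exp_pos _)]
      have h3 : Real.exp (-(d n * t)) ≤ 1 := by
        rw [Real.exp_le_one_iff]
        have := mul_nonneg (hd n) ht.1
        linarith
      calc _ ≤ 1 * |a n| := by gcongr
        _ ≤ M := by rw [one_mul]; exact ha0 n
    have h3 : 2 * R' * R' * K * (t + √t) ≤ 2 * R' * R' * K * (2 * σ) := by
      have := hsum t ht
      gcongr
    have h4 := abs_add_le (Real.exp (-(d n * t)) * a n)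
      (Real.exp (-(d n * t)) * ∫ r in (0 : ℝ)..t, Real.exp (d n * r) * F κ c z n r)
    linarith
  let Φ : ((I × ℝ) →ᵇ ℝ) → ((I × ℝ) →ᵇ ℝ) := fun z =>
    BoundedContinuousFunction.ofNormedAddCommGroup (fun p : I × ℝ => U d κ c a z p.1 (cl τ p.2))
      (hU_cont z) (M + 2 * ‖z‖ * ‖z‖ * K * (2 * σ)) (fun p => by
        rw [Real.norm_eq_abs]
        exact hU_bd z ‖z‖ z.continuous (fun p => z.norm_coe_le_norm p) p.1 _ (cl_mem hτ0.le _))
  have hΦ : ∀ z p, Φ z p = U d κ c a z p.1 (cl τ p.2) := fun z p => rfl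
  have hmaps : MapsTo Φ (Metric.closedBall 0 R) (Metric.closedBall 0 R) := by
    intro z hz
    rw [mem_closedBall_zero_iff] at hz ⊢
    rw [BoundedContinuousFunction.norm_le hR0.le]
    intro p
    rw [Real.norm_eq_abs, hΦ]
    have := hU_bd z R z.continuous (fun p => (z.norm_coe_le_norm p).trans hz) p.1 _
      (cl_mem hτ0.le p.2)
    linarith
  have hcontr : ContractingWith (1 / 2 : ℝ≥0) (hmaps.restrict Φ _ _) := by
    refine ⟨by rw [← NNReal.coe_lt_coe]; norm_num, ?_⟩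
    refine LipschitzWith.of_dist_le_mul ?_
    rintro ⟨z, hz⟩ ⟨z', hz'⟩
    rw [Subtype.dist_eq, Subtype.dist_eq]
    simp only [MapsTo.val_restrict_apply]
    rw [BoundedContinuousFunction.dist_le (by positivity)]
    rintro ⟨n, t⟩
    rw [hΦ, hΦ, Real.dist_eq]
    rw [mem_closedBall_zero_iff] at hz hz'
    have hz1 : ∀ p, |z p| ≤ R := fun p => (z.norm_coe_le_norm p).trans hz
    have hz1' : ∀ p, |z' p| ≤ R := fun p => (z'.norm_coe_le_norm p).trans hz'
    have hdd : ∀ p, |z p - z' p| ≤ dist z z' := fun p => by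
      rw [← Real.dist_eq]; exact BoundedContinuousFunction.dist_coe_le_dist p
    have hct := cl_mem hτ0.le t
    have hF := F_cont hκ h' z.continuous hz1 n
    have hF' := F_cont hκ h' z'.continuous hz1' n
    have h1 : U d κ c a z n (cl τ t) - U d κ c a z' n (cl τ t)
        = Real.exp (-(d n * cl τ t)) * ∫ r in (0 : ℝ)..(cl τ t),
          Real.exp (d n * r) * (F κ c z n r - F κ c z' n r) := by
      unfold U
      rw [← mul_sub]
      congr 1
      rw [add_sub_add_left_eq_sub, ← intervalIntegral.integral_sub]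
      · congr 1; ext r; ring
      · exact (by fun_prop : Continuous fun r => Real.exp (d n * r) * F κ c z n r).intervalIntegrable _ _
      · exact (by fun_prop : Continuous fun r => Real.exp (d n * r) * F κ c z' n r).intervalIntegrable _ _
    have hdist : 0 ≤ dist z z' := dist_nonneg
    have h2 := int_bound (hd n) hct.1 (Q := 4 * R * dist z z' * K) (by positivity)
      (f := fun r => F κ c z n r - F κ c z' n r) (hF.sub hF')
      (fun r => F_sub hκ h' hz1 hz1' hdd n r)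
    simp only at h1 ⊢
    rw [h1]
    refine h2.trans ?_
    have h3 : ((1 / 2 : ℝ≥0) : ℝ) = 1 / 2 := by norm_num
    rw [h3]
    calc 4 * R * dist z z' * K * (cl τ t + √(cl τ t)) ≤ 4 * R * dist z z' * K * (2 * σ) := by
          have := hsum _ hct
          gcongr
      _ = (4 * R * K * (2 * σ)) * dist z z' := by ring
      _ ≤ 1 / 2 * dist z z' := by gcongr
  obtain ⟨z, hzR, hfix, -⟩ := ContractingWith.exists_fixedPoint' Metric.isClosed_closedBall.isComplete
    hmaps hcontr (x := 0) (by simp [hR0.le]) (edist_ne_top _ _)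
  have hz0 : ∀ p, |z p| ≤ R := fun p => by
    rw [mem_closedBall_zero_iff] at hzR
    exact (z.norm_coe_le_norm p).trans hzR
  have hzU : ∀ n t, z (n, t) = U d κ c a z n (cl τ t) := fun n t => by
    have : Φ z = z := hfix
    conv_lhs => rw [← this]
    exact hΦ z (n, t)
  have hzI : ∀ n, ∀ t ∈ Icc 0 τ, z (n, t) = U d κ c a z n t := fun n t ht => by
    rw [hzU, cl_eq ht]
  refine ⟨fun n t => X κ z t n, fun n => ?_, fun n t ht => ?_, R, fun t _ n => X_bound hκ hz0 t n⟩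
  · have h1 := hzI n 0 ⟨le_rfl, hτ0.le⟩
    simp only [X]
    rw [h1]
    simp only [U, mul_zero, neg_zero, Real.exp_zero, intervalIntegral.integral_same, add_zero,
      one_mul, ha]
    rw [← mul_assoc, inv_mul_cancel₀ (hκ0 n).ne', one_mul]
  · have h1 := ((U_deriv hκ h' z.continuous hz0 a n t).const_mul
      ((κ n)⁻¹)).hasDerivWithinAt (s := Icc 0 τ)
    have h2 : HasDerivWithinAt (fun t => X κ z t n)
        ((κ n)⁻¹ * (-(d n * U d κ c a z n t) + F κ c z n t)) (Icc 0 τ) t := by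
      refine h1.congr (fun r hr => ?_) ?_
      · simp only [X]; rw [hzI n r hr]
      · simp only [X]; rw [hzI n t ht]
    refine h2.congr_deriv ?_
    rw [← hzI n t ht]
    have h3 : F κ c z n t = κ n * qd c (X κ z t) n := rfl
    rw [h3]
    have h4 := (hκ0 n).ne'
    rw [mul_add, ← mul_assoc _ (κ n), inv_mul_cancel₀ h4, one_mul]
    congr 1
    simp only [X]
    ring

end Pool.Agent.Y751.ND
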