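import Pool.Agent.Y751.ND.Est

/-! Uniqueness and propagation of weights for abstract quadratic systems with damping. -/

open Set Filter Topology MeasureTheory

set_option autoImplicit false

namespace Pool.Agent.Y751.ND

open Pool.Agent.Y5.D

variable {I : Type} {d κ r : I → ℝ} {c : I → I → I → ℝ}

/-- summability with the weight `θ` -/
def Sm (d κ θ : I → ℝ) (c : I → I → I → ℝ) (C : ℝ) : Prop := ∀ i,
  Summable (fun p : I × I => |c i p.1 p.2| * (θ i * κ i) / (κ p.1 * κ p.2 * (θ p.1 + θ p.2))) ∧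
    ∑' p : I × I, |c i p.1 p.2| * (θ i * κ i) / (κ p.1 * κ p.2 * (θ p.1 + θ p.2))
      ≤ C * (1 + √(d i))

theorem Sm.mono {θ : I → ℝ} {C C' : ℝ} (h : Sm d κ θ c C) (hC : C ≤ C') : Sm d κ θ c C' := by
  intro i
  refine ⟨(h i).1, (h i).2.trans ?_⟩
  have := Real.sqrt_nonneg (d i)
  gcongr

/-- the summability hypothesis with truncated weights -/
theorem Sm.trunc (hκ : ∀ i, 1 ≤ κ i) {θ : I → ℝ} (hθ : ∀ i, 1 ≤ θ i) {C C₀ : ℝ}
    (h : Sm d κ θ c C) (h0 : Sm d κ (fun _ => 1) c C₀) {R : ℝ} (hR : 1 ≤ R) :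
    Sm d κ (fun i => min (θ i) R) c (C + 2 * C₀) := by
  intro i
  have hle : ∀ p : I × I, |c i p.1 p.2| * (min (θ i) R * κ i) /
      (κ p.1 * κ p.2 * (min (θ p.1) R + min (θ p.2) R)) ≤
      |c i p.1 p.2| * (θ i * κ i) / (κ p.1 * κ p.2 * (θ p.1 + θ p.2)) +
      2 * (|c i p.1 p.2| * (1 * κ i) / (κ p.1 * κ p.2 * (1 + 1))) := by
    rintro ⟨a, b⟩
    simp only
    have ha := hκ a
    have hb := hκ b
    have hi := hκ i
    have hta := hθ a
    have htb := hθ b
    have hti := hθ i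
    have hma : 1 ≤ min (θ a) R := le_min hta hR
    have hmb : 1 ≤ min (θ b) R := le_min htb hR
    have hca := abs_nonneg (c i a b)
    have e1 : |c i a b| * (min (θ i) R * κ i) / (κ a * κ b * (min (θ a) R + min (θ b) R)) =
        |c i a b| * κ i / (κ a * κ b) * (min (θ i) R / (min (θ a) R + min (θ b) R)) := by
      field_simp
    have e2 : |c i a b| * (θ i * κ i) / (κ a * κ b * (θ a + θ b)) =
        |c i a b| * κ i / (κ a * κ b) * (θ i / (θ a + θ b)) := by
      field_simp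
    have e3 : 2 * (|c i a b| * (1 * κ i) / (κ a * κ b * (1 + 1))) =
        |c i a b| * κ i / (κ a * κ b) * 1 := by
      field_simp; ring
    rw [e1, e2, e3, ← mul_add]
    have hq : min (θ i) R / (min (θ a) R + min (θ b) R) ≤ θ i / (θ a + θ b) + 1 := by
      by_cases hc : θ a ≤ R ∧ θ b ≤ R
      · rw [min_eq_left hc.1, min_eq_left hc.2]
        have h1 : min (θ i) R / (θ a + θ b) ≤ θ i / (θ a + θ b) := by
          gcongr
          exact min_le_left _ _
        linarith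
      · have h1 : min (θ i) R / (min (θ a) R + min (θ b) R) ≤ 1 := by
          rw [div_le_one (by linarith)]
          refine (min_le_right _ _).trans ?_
          rcases not_and_or.1 hc with h | h
          · rw [min_eq_right (not_le.1 h).le]; linarith
          · rw [min_eq_right (not_le.1 h).le]; linarith
        have h2 : 0 ≤ θ i / (θ a + θ b) := by positivity
        linarith
    gcongr
  have hnn : ∀ p : I × I, 0 ≤ |c i p.1 p.2| * (min (θ i) R * κ i) /
      (κ p.1 * κ p.2 * (min (θ p.1) R + min (θ p.2) R)) := by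
    intro p
    have h1 : ∀ j, 0 ≤ min (θ j) R := fun j => le_min (by linarith [hθ j]) (by linarith)
    have h2 := h1 i
    have h3 := h1 p.1
    have h4 := h1 p.2
    have := hκ i
    have := hκ p.1
    have := hκ p.2
    positivity
  have hsum := (h i).1.add ((h0 i).1.mul_left 2)
  have hS : Summable (fun p : I × I => |c i p.1 p.2| * (min (θ i) R * κ i) /
      (κ p.1 * κ p.2 * (min (θ p.1) R + min (θ p.2) R))) :=
    Summable.of_nonneg_of_le hnn hle hsum
  refine ⟨hS, ?_⟩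
  refine (hS.tsum_le_tsum hle hsum).trans ?_
  rw [(h i).1.tsum_add ((h0 i).1.mul_left 2), tsum_mul_left]
  have h1 := (h i).2
  have h2 := (h0 i).2
  calc _ ≤ C * (1 + √(d i)) + 2 * (C₀ * (1 + √(d i))) := by gcongr
    _ = _ := by ring

/-- bounds for the quadratic term -/
theorem qd_bound (hκ : ∀ i, 1 ≤ κ i) {θ : I → ℝ} (hθ : ∀ i, 1 ≤ θ i) {C : ℝ}
    (h : Sm d κ θ c C) {Q : ℝ} (hQ : 0 ≤ Q) {u : I × I → ℝ}
    (hu : ∀ p, κ p.1 * κ p.2 * (θ p.1 + θ p.2) * |u p| ≤ Q) (i : I) :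
    Summable (fun p : I × I => c i p.1 p.2 * u p) ∧
      θ i * κ i * |∑' p : I × I, c i p.1 p.2 * u p| ≤ Q * (C * (1 + √(d i))) := by
  have h1 := qbound (P := I × I) (W := θ i * κ i) (Q := Q)
    (by have := hκ i; have := hθ i; positivity)
    (c := fun p => c i p.1 p.2) (m := fun p => κ p.1 * κ p.2 * (θ p.1 + θ p.2)) (u := u)
    (fun p => by
      have := hκ p.1; have := hκ p.2; have := hθ p.1; have := hθ p.2
      positivity) (h i).1 hu
  refine ⟨h1.1, h1.2.trans ?_⟩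
  have := (h i).2
  gcongr

theorem prod_bound (hκ : ∀ i, 1 ≤ κ i) {x y : I → ℝ} {M A : ℝ} (hx : ∀ i, κ i * |x i| ≤ M)
    (hy : ∀ i, κ i * |y i| ≤ A) (a b : I) : κ a * κ b * |x a * y b| ≤ M * A := by
  have h1 := hx a
  have h2 := hy b
  have h3 := hκ a
  have h4 := hκ b
  rw [abs_mul]
  calc κ a * κ b * (|x a| * |y b|) = (κ a * |x a|) * (κ b * |y b|) := by ring
    _ ≤ M * A := by
        apply mul_le_mul h1 h2 (by positivity)
        exact le_trans (by positivity) h1

theorem qd_summable (hκ : ∀ i, 1 ≤ κ i) {C : ℝ} (h : Sm d κ (fun _ => 1) c C) {x : I → ℝ} {M : ℝ}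
    (hx : ∀ i, κ i * |x i| ≤ M) (i : I) :
    Summable (fun p : I × I => c i p.1 p.2 * (x p.1 * x p.2)) := by
  refine (qd_bound (θ := fun _ => 1) (Q := 2 * (M * M)) hκ (fun _ => le_rfl) h ?_
    (fun p => ?_) i).1
  · have := le_trans (by have := hκ i; positivity) (hx i)
    positivity
  · have := prod_bound hκ hx hx p.1 p.2
    linarith

theorem qd_eq (x : I → ℝ) (i : I) : qd c x i = ∑' p : I × I, c i p.1 p.2 * (x p.1 * x p.2) := by
  unfold qd
  exact tsum_congr fun p => by ring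

/-- Lipschitz bound -/
theorem qd_sub (hκ : ∀ i, 1 ≤ κ i) {C : ℝ} (h : Sm d κ (fun _ => 1) c C)
    {x y : I → ℝ} {M M' A : ℝ} (hx : ∀ i, κ i * |x i| ≤ M) (hy : ∀ i, κ i * |y i| ≤ M')
    (hd : ∀ i, κ i * |x i - y i| ≤ A) (i : I) :
    κ i * |qd c x i - qd c y i| ≤ 2 * (M + M') * A * (C * (1 + √(d i))) := by
  have hM : 0 ≤ M := le_trans (by have := hκ i; positivity) (hx i)
  have hM' : 0 ≤ M' := le_trans (by have := hκ i; positivity) (hy i)
  have hA : 0 ≤ A := le_trans (by have := hκ i; positivity) (hd i)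
  rw [qd_eq, qd_eq, ← (qd_summable hκ h hx i).tsum_sub (qd_summable hκ h hy i)]
  have e : ∀ p : I × I, c i p.1 p.2 * (x p.1 * x p.2) - c i p.1 p.2 * (y p.1 * y p.2) =
      c i p.1 p.2 * (x p.1 * (x p.2 - y p.2) + (x p.1 - y p.1) * y p.2) := fun p => by ring
  rw [tsum_congr e]
  have h2 := (qd_bound (θ := fun _ => 1) (Q := 2 * (M + M') * A) hκ (fun _ => le_rfl) h
    (by positivity) (u := fun p => x p.1 * (x p.2 - y p.2) + (x p.1 - y p.1) * y p.2)
    (fun p => by
      have h3 := prod_bound hκ hx hd p.1 p.2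
      have h4 := prod_bound hκ hd hy p.1 p.2
      have h5 := abs_add_le (x p.1 * (x p.2 - y p.2)) ((x p.1 - y p.1) * y p.2)
      have h6 := hκ p.1
      have h7 := hκ p.2
      calc κ p.1 * κ p.2 * (1 + 1) * |x p.1 * (x p.2 - y p.2) + (x p.1 - y p.1) * y p.2|
          ≤ κ p.1 * κ p.2 * (1 + 1) * (|x p.1 * (x p.2 - y p.2)| + |(x p.1 - y p.1) * y p.2|) := by
            gcongr
        _ = 2 * (κ p.1 * κ p.2 * |x p.1 * (x p.2 - y p.2)|) +
            2 * (κ p.1 * κ p.2 * |(x p.1 - y p.1) * y p.2|) := by ring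
        _ ≤ 2 * (M * A) + 2 * (A * M') := by gcongr
        _ = _ := by ring) i).2
  simpa using h2

/-- a solution on a closed interval -/
def CSol (d κ : I → ℝ) (c : I → I → I → ℝ) (T : ℝ) (z : I → ℝ → ℝ) : Prop :=
  (∀ i, ∀ t ∈ Icc 0 T, HasDerivWithinAt (z i) (-(d i * z i t) + qd c (fun a => z a t) i)
    (Icc 0 T) t) ∧
  ∃ M, ∀ t ∈ Icc 0 T, ∀ i, κ i * |z i t| ≤ M

theorem ASol.csol {T T' : ℝ} {z : I → ℝ → ℝ} (h : ASol d κ c T z) (hT : T' < T) :
    CSol d κ c T' z :=
  ⟨fun n t ht => (h.deriv n t ⟨ht.1, lt_of_le_of_lt ht.2 hT⟩).mono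
    (fun r hr => ⟨hr.1, lt_of_le_of_lt hr.2 hT⟩), h.bdd T' hT⟩

theorem csol_uniq (hd : ∀ i, 0 ≤ d i) (hκ : ∀ i, 1 ≤ κ i) {C : ℝ}
    (h : Sm d κ (fun _ => 1) c C) {T : ℝ} {x y : I → ℝ → ℝ} (hx : CSol d κ c T x)
    (hy : CSol d κ c T y) (h0 : ∀ n, x n 0 = y n 0) : ∀ n, ∀ t ∈ Icc 0 T, x n t = y n t := by
  obtain ⟨M, hM⟩ := hx.2
  obtain ⟨M', hM'⟩ := hy.2
  intro n t ht
  have h0T : (0 : ℝ) ∈ Icc 0 T := ⟨le_rfl, le_trans ht.1 ht.2⟩
  have hκ0 : ∀ i, 0 < κ i := fun i => lt_of_lt_of_le one_pos (hκ i)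
  have hM0 : 0 ≤ M := le_trans (mul_nonneg (hκ0 n).le (abs_nonneg _)) (hM 0 h0T n)
  have hM0' : 0 ≤ M' := le_trans (mul_nonneg (hκ0 n).le (abs_nonneg _)) (hM' 0 h0T n)
  have h' : Sm d κ (fun _ => 1) c |C| := h.mono (le_abs_self C)
  have key := grow (T := T) (A₀ := M + M') (D := 0) (κ := 2 * (M + M') * |C|)
    (by positivity) le_rfl hd
    (w := fun n t => κ n * (x n t - y n t))
    (f := fun n t => κ n * (qd c (fun a => x a t) n - qd c (fun a => y a t) n))
    (by
      intro n t ht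
      have h1 := ((hx.1 n t ht).sub (hy.1 n t ht)).const_mul (κ n)
      exact h1.congr_deriv (by ring))
    (by intro n; simp [h0 n])
    (by
      intro t ht n
      rw [abs_mul, abs_of_pos (hκ0 n)]
      have h1 := hM t ht n
      have h2 := hM' t ht n
      have h3 : |x n t - y n t| ≤ |x n t| + |y n t| := abs_sub _ _
      calc κ n * |x n t - y n t| ≤ κ n * (|x n t| + |y n t|) := by
            have := hκ0 n
            gcongr
        _ ≤ M + M' := by linarith)
    (by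
      intro t ht A hA0 hA n
      have hA' : ∀ n, κ n * |x n t - y n t| ≤ A := by
        intro n
        have := hA n
        rwa [abs_mul, abs_of_pos (hκ0 n)] at this
      have h1 := qd_sub (x := fun a => x a t) (y := fun a => y a t) hκ h' (hM t ht) (hM' t ht) hA' n
      rw [abs_mul, abs_of_pos (hκ0 n)]
      refine h1.trans (le_of_eq (by ring))) n t ht
  have h5 : |κ n * (x n t - y n t)| ≤ 0 := by simpa using key
  have h6 : κ n * (x n t - y n t) = 0 := abs_eq_zero.1 (le_antisymm h5 (abs_nonneg _))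
  rcases mul_eq_zero.1 h6 with h | h
  · exact absurd h (hκ0 n).ne'
  · linarith

/-- propagation of weights -/
theorem weight (hd : ∀ i, 0 ≤ d i) (hκ : ∀ i, 1 ≤ κ i) {θ : I → ℝ} (hθ : ∀ i, 1 ≤ θ i)
    {C C₀ : ℝ} (h : Sm d κ θ c C) (h0 : Sm d κ (fun _ => 1) c C₀) {T : ℝ} {x : I → ℝ → ℝ}
    (hx : CSol d κ c T x) {D : ℝ} (hD : ∀ n, θ n * κ n * |x n 0| ≤ D) :
    ∃ M, ∀ t ∈ Icc 0 T, ∀ n, θ n * κ n * |x n t| ≤ M := by
  obtain ⟨M, hM⟩ := hx.2
  have hκ0 : ∀ i, 0 < κ i := fun i => lt_of_lt_of_le one_pos (hκ i)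
  set K := |C + 2 * C₀| with hK
  have hK0 : 0 ≤ K := abs_nonneg _
  refine ⟨2 * |D| * Real.exp (((4 * (2 * |M| * K)) ^ 2 + 1) * T), fun t ht n => ?_⟩
  have h0T : (0 : ℝ) ∈ Icc 0 T := ⟨le_rfl, le_trans ht.1 ht.2⟩
  have hM0 : 0 ≤ M := le_trans (mul_nonneg (hκ0 n).le (abs_nonneg _)) (hM 0 h0T n)
  set R := θ n with hR
  have hR1 : 1 ≤ R := hθ n
  have hT := (h.trunc hκ hθ h0 hR1).mono (le_abs_self (C + 2 * C₀))
  rw [← hK] at hT
  set ω : I → ℝ := fun i => min (θ i) R with hω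
  have hω1 : ∀ i, 1 ≤ ω i := fun i => le_min (hθ i) hR1
  have hω0 : ∀ i, 0 < ω i := fun i => lt_of_lt_of_le one_pos (hω1 i)
  have key := grow (T := T) (A₀ := R * M) (D := |D|) (κ := 2 * |M| * K)
    (by positivity) (abs_nonneg D) hd
    (w := fun m t => ω m * κ m * x m t)
    (f := fun m t => ω m * κ m * qd c (fun a => x a t) m)
    (by
      intro m t ht
      have h1 := (hx.1 m t ht).const_mul (ω m * κ m)
      exact h1.congr_deriv (by ring))
    (by
      intro m
      rw [abs_mul, abs_of_pos (mul_pos (hω0 m) (hκ0 m))]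
      refine le_trans ?_ ((hD m).trans (le_abs_self D))
      have := hκ0 m
      gcongr
      exact min_le_left _ _)
    (by
      intro t ht m
      rw [abs_mul, abs_of_pos (mul_pos (hω0 m) (hκ0 m))]
      have h1 := hM t ht m
      have h2 : ω m ≤ R := min_le_right _ _
      have h3 := hκ0 m
      calc ω m * κ m * |x m t| = ω m * (κ m * |x m t|) := by ring
        _ ≤ R * M := by
          apply mul_le_mul h2 h1 (by positivity) (by linarith))
    (by
      intro t ht A hA0 hA m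
      have hA' : ∀ m, ω m * κ m * |x m t| ≤ A := by
        intro m
        have := hA m
        rwa [abs_mul, abs_of_pos (mul_pos (hω0 m) (hκ0 m))] at this
      rw [abs_mul, abs_of_pos (mul_pos (hω0 m) (hκ0 m)), qd_eq]
      have h1 := (qd_bound (Q := 2 * M * A) hκ hω1 hT (by positivity)
        (u := fun p => x p.1 t * x p.2 t) (fun p => by
          have h2 := hM t ht p.1
          have h3 := hM t ht p.2
          have h4 := hA' p.1
          have h5 := hA' p.2
          have h6 := hκ0 p.1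
          have h7 := hκ0 p.2
          have h8 := hω0 p.1
          have h9 := hω0 p.2
          rw [abs_mul]
          calc κ p.1 * κ p.2 * (ω p.1 + ω p.2) * (|x p.1 t| * |x p.2 t|)
              = (ω p.1 * κ p.1 * |x p.1 t|) * (κ p.2 * |x p.2 t|)
                + (κ p.1 * |x p.1 t|) * (ω p.2 * κ p.2 * |x p.2 t|) := by ring
            _ ≤ A * M + M * A := by
                gcongr
            _ = 2 * M * A := by ring) m).2
      refine h1.trans (le_of_eq ?_)
      rw [abs_of_nonneg hM0]; ring) n t ht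
  simp only [abs_mul, abs_of_pos (hω0 n), abs_of_pos (hκ0 n)] at key
  have h1 : ω n = θ n := by
    rw [hω]
    simp only [hR, min_self]
  rw [h1] at key
  refine le_trans key ?_
  gcongr
  exact ht.2

end Pool.Agent.Y751.ND
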